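import Mathlib

set_option autoImplicit false

namespace Pool.Agent.H.MP_6095cf_an

open Finset
open scoped Nat ENNReal

noncomputable section

/-- the sequence -/
def n (k : ℕ) : ℕ := 8 ^ k * k !

theorem ns (k : ℕ) : n (k + 1) = 8 * ((k + 1) * n k) := by
  simp only [n, pow_succ, Nat.factorial_succ]
  ring

theorem np (k : ℕ) : 0 < n k := by unfold n; positivity

theorem nm : StrictMono n := strictMono_nat_of_lt_succ fun k => by rw [ns]; nlinarith [np k]

/-- the blocks -/
def J (k : ℕ) : Finset ℕ := Ico (n (k + 1)) (n (k + 1) + 2 * ((k + 1) * n k))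

/-- norming functionals -/
def I : Type := {c : ℕ →₀ ℝ // (∀ i, |c i| ≤ 1) ∧ ((∃ N, ∀ i, c i = if i < N then 1 else 0) ∨
  ∀ k, (c.support ∩ J k).card ≤ n k)}

/-- basis in the ambient space -/
def b (i : ℕ) : lp (fun _ : I => ℝ) ∞ := ⟨fun c => c.1 i, memℓp_infty ⟨1, by rintro _ ⟨c, rfl⟩; exact c.2.1 i⟩⟩

/-- the space -/
abbrev X := (Submodule.span ℝ (Set.range b)).topologicalClosure

/-- basis -/
def e (i : ℕ) : X := ⟨b i, Submodule.le_topologicalClosure _ (Submodule.subset_span ⟨i, rfl⟩)⟩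

/-- evaluation -/
def g (c : I) : X →L[ℝ] ℝ := lp.evalCLM ℝ _ ∞ c ∘L X.subtypeL

/-- unit functional -/
def u (i : ℕ) : I := ⟨.single i 1, fun j => by rw [Finsupp.single_apply]; split_ifs <;> simp, .inr fun k =>
  (card_le_card (inter_subset_left.trans Finsupp.support_single_subset)).trans (np k)⟩

/-- coordinates -/
def f (i : ℕ) : X →L[ℝ] ℝ := g (u i)

theorem ge (c : I) (i : ℕ) : g c (e i) = c.1 i := rfl

theorem fe (i j : ℕ) : f i (e j) = if i = j then 1 else 0 := Finsupp.single_apply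

theorem dn : Dense (Submodule.span ℝ (Set.range e) : Set X) := fun v => by
  have h := Submodule.map_span X.subtype (Set.range e)
  rw [← Set.range_comp] at h
  rw [Topology.IsInducing.subtypeVal.closure_eq_preimage_closure_image]
  exact (congrArg (fun s : Submodule ℝ (lp (fun _ : I => ℝ) ∞) => v.1 ∈ closure (SetLike.coe s)) h).mpr v.2

theorem rep (c : I) (v : X) : g c v = ∑ i ∈ c.1.support, c.1 i * f i v := by
  have : g c = ∑ i ∈ c.1.support, c.1 i • f i := ContinuousLinearMap.ext_on dn (by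
    rintro _ ⟨j, rfl⟩
    simp [ge, fe, eq_comm])
  simp [this]

theorem gl (c : I) (v : X) : |g c v| ≤ ‖v‖ := lp.norm_apply_le_norm (by simp) v.1 c

theorem nl {v : X} {r : ℝ} (h : ∀ c, |g c v| ≤ r) : ‖v‖ ≤ r :=
  have : Nonempty I := ⟨u 0⟩
  lp.norm_le_of_forall_le' (f := v.1) r h

theorem gs (c : I) (A : Finset ℕ) (a : ℕ → ℝ) : g c (∑ i ∈ A, a i • e i) = ∑ i ∈ A, a i * c.1 i := by simp [ge]

theorem ps (N : ℕ) (v : X) : |∑ i ∈ range N, f i v| ≤ ‖v‖ := by
  have := gl ⟨.indicator (range N) fun _ _ => 1, fun i => by rw [Finsupp.indicator_apply]; split_ifs <;> simp,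
    .inl ⟨N, fun i => by simp [Finsupp.indicator_apply]⟩⟩ v
  rwa [rep, sum_subset (Finsupp.support_indicator_subset ..) fun i _ h => by simp [Finsupp.notMem_support_iff.1 h],
    sum_congr rfl fun i h => by rw [Finsupp.indicator_of_mem h, one_mul]] at this

theorem ad {A : Finset ℕ} (h : ∀ k, (A ∩ J k).card ≤ n k) {c : ℕ → ℝ} (hc : ∀ i, |c i| ≤ 1) (v : X) :
    |∑ i ∈ A, f i v * c i| ≤ ‖v‖ := by
  have := gl ⟨.indicator A fun i _ => c i, fun i => by rw [Finsupp.indicator_apply]; split_ifs <;> simp [hc],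
    .inr fun k => (card_le_card (inter_subset_inter_right (Finsupp.support_indicator_subset ..))).trans (h k)⟩ v
  rwa [rep, sum_subset (Finsupp.support_indicator_subset ..) fun i _ h => by simp [Finsupp.notMem_support_iff.1 h],
    sum_congr rfl fun i h => by rw [Finsupp.indicator_of_mem h, mul_comm]] at this

theorem ad' (c : I) (h : ∀ k, (c.1.support ∩ J k).card ≤ n k) (A : Finset ℕ) (v : X) :
    |∑ i ∈ A, f i v * c.1 i| ≤ ‖v‖ := by
  rw [← sum_subset (inter_subset_left (s₂ := c.1.support)) fun i a h => by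
    simp [Finsupp.notMem_support_iff.1 fun l => h (mem_inter.2 ⟨a, l⟩)]]
  exact ad (fun k => (card_le_card (inter_subset_inter_right inter_subset_right)).trans (h k)) c.2.1 v

theorem sch (m : ℕ) (v : X) : ‖∑ i ∈ range m, f i v • e i‖ ≤ ‖v‖ := nl fun c => by
  rw [gs]
  rcases c.2.2 with ⟨N, h⟩ | h
  · simpa [h, ← sum_filter, show filter (· < N) (range m) = range (min m N) by ext; simp] using ps _ v
  exact ad' c h _ v

theorem pos (A : Finset ℕ) : ‖∑ i ∈ A, e i‖ = A.card := by
  refine le_antisymm (nl fun c => ?_) ?_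
  · simpa [ge] using (abs_sum_le_sum_abs _ A).trans (sum_le_card_nsmul _ _ _ fun i _ => c.2.1 i)
  refine le_trans ?_ ((le_abs_self _).trans (ps (A.sup id + 1) _))
  simp [fe, sum_ite_mem, inter_eq_right.2 fun i (h : i ∈ A) => mem_range.2 (Nat.lt_succ_of_le (le_sup (f := id) h))]

theorem qg (v : X) (m : ℕ) (A : Finset ℕ) (h : A.card = n m) (a : ∀ i ∈ A, ∀ j ∉ A, |f j v| ≤ |f i v|) :
    ‖∑ i ∈ A, f i v • e i‖ ≤ 5 * ‖v‖ := nl fun c => by
  rw [gs]
  rcases c.2.2 with ⟨N, p⟩ | p
  swap
  · linarith [ad' c p A v, norm_nonneg v]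
  rcases m with - | m
  · linarith [ad (A := A) (fun k => (card_le_card inter_subset_left).trans (h.trans_le (nm.monotone k.zero_le))) c.2.1 v,
      norm_nonneg v]
  set U := range (2 * n m) ∪ J m with hU
  have s := ns m
  have t : n m ≤ (m + 1) * n m := Nat.le_mul_of_pos_left _ m.succ_pos
  have d : ∀ {w : ℕ → ℝ}, (∀ i, |w i| ≤ 1) → |∑ i ∈ A \ U, f i v * w i| ≤ ‖v‖ := fun l => ad (fun k => by
    rcases lt_or_ge m k with r | r
    · exact (card_le_card (inter_subset_left.trans sdiff_subset)).trans (h.trans_le (nm.monotone r))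
    rw [disjoint_iff_inter_eq_empty.1 (disjoint_sdiff_self_left.mono_right fun i x => ?_)]
    · simp
    rcases r.eq_or_lt with rfl | r
    · exact mem_union_right _ x
    have : n (k + 1) ≤ n m := nm.monotone r
    have := ns k
    exact mem_union_left _ (mem_range.2 (by have := (mem_Ico.1 x).2; omega))) l v
  have k : (U \ A).card ≤ (A \ U).card := by
    have : U.card ≤ _ := (card_union_le (range (2 * n m)) (J m)).trans_eq (by rw [card_range, J, Nat.card_Ico])
    have := le_card_sdiff U A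
    have := card_le_card (sdiff_subset (s := U) (t := A))
    omega
  have l : |∑ i ∈ U \ A, f i v * c.1 i| ≤ ‖v‖ := by
    obtain ⟨B, x, y⟩ := exists_subset_card_eq k
    let σ := equivOfCardEq y
    refine (abs_sum_le_sum_abs _ _).trans (le_trans ?_ ((le_abs_self _).trans (d (w := fun i => SignType.sign (f i v))
      fun i => by rcases lt_trichotomy (f i v) 0 with r | r | r <;> simp [r])))
    simp only [self_mul_sign]
    refine le_trans ?_ (sum_le_sum_of_subset_of_nonneg x fun _ _ _ => abs_nonneg _)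
    rw [← sum_coe_sort, ← sum_coe_sort B, ← σ.sum_comp]
    refine sum_le_sum fun i _ => (abs_mul _ _).trans_le ((mul_le_of_le_one_right (abs_nonneg _) (c.2.1 _)).trans ?_)
    exact a _ (mem_sdiff.1 (x i.2)).1 _ (mem_sdiff.1 (σ i).2).2
  have o : ∀ M, |∑ i ∈ range M, f i v * c.1 i| ≤ ‖v‖ := fun M => by
    simpa [p, ← sum_filter, show filter (· < N) (range M) = range (min M N) by ext; simp] using ps _ v
  have q := sum_union (f := fun i => f i v * c.1 i) (show Disjoint (range (2 * n m)) (J m) from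
    disjoint_left.2 fun i x y => by have := mem_range.1 x; have := (mem_Ico.1 y).1; omega)
  rw [J, sum_Ico_eq_sub _ (Nat.le_add_right ..), ← J, ← hU, ← sum_inter_add_sum_sdiff U A, inter_comm] at q
  rw [← sum_inter_add_sum_sdiff A U]
  have := abs_le.1 (d c.2.1)
  have := abs_le.1 l
  have := abs_le.1 (o (2 * n m))
  have := abs_le.1 (o (n (m + 1)))
  have := abs_le.1 (o (n (m + 1) + 2 * ((m + 1) * n m)))
  exact abs_le.2 ⟨by linarith, by linarith⟩

theorem bad (k : ℕ) : ∃ (v : X) (A : Finset ℕ), A.card = n (k + 1) ∧ (∀ i ∈ A, ∀ j ∉ A, |f j v| ≤ |f i v|) ∧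
    (k + 1) * n k ≤ ‖v - ∑ i ∈ A, f i v • e i‖ ∧ ‖v - ∑ i ∈ range (n (k + 1)), f i v • e i‖ ≤ n k := by
  have s := ns k
  set N := n (k + 1)
  set L := (k + 1) * n k with hL
  let w := fun i => if i < N then (1 : ℝ) else (-1) ^ (i + 1)
  have z : ∀ j, f j (∑ i ∈ range (N + 2 * L), w i • e i) = if j < N + 2 * L then w j else 0 := fun j => by simp [fe]
  have y : ∀ i, |w i| = 1 := fun i => by unfold w; split_ifs <;> simp
  let B := (range L).map ⟨fun i => N + 2 * i, fun _ _ h => by simpa using h⟩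
  have m : ∀ i ∈ B, N ≤ i ∧ i < N + 2 * L ∧ w i = -1 := fun i h => by
    obtain ⟨j, a, rfl⟩ := mem_map.1 h
    have := mem_range.1 a
    exact ⟨Nat.le_add_right .., Nat.add_lt_add_left (by omega) _, by simp [w, s, pow_add, pow_mul, Even.neg_one_pow (⟨4, rfl⟩ : Even 8)]⟩
  have d : Disjoint (range (N - L)) B := disjoint_left.2 fun i a b => by have := m i b; have := mem_range.1 a; omega
  have r : ∀ i ∈ range (N - L) ∪ B, i < N + 2 * L := fun i h =>
    (mem_union.1 h).elim (fun a => by have := mem_range.1 a; omega) fun a => (m i a).2.1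
  have t : ∀ M, ∑ i ∈ Ico N (N + M), w i = if Even M then 0 else -1 := fun M => by
    rw [sum_Ico_eq_sum_range, Nat.add_sub_cancel_left, sum_congr rfl (g := fun i => -(-1) ^ i) fun i _ => by
      simp [w, s, pow_add, pow_mul, Even.neg_one_pow (⟨4, rfl⟩ : Even 8)], sum_neg_distrib, neg_one_geom_sum]
    split_ifs <;> simp
  refine ⟨∑ i ∈ range (N + 2 * L), w i • e i, range (N - L) ∪ B, by rw [card_union_of_disjoint d]; simp [B]; omega,
    fun i a j _ => by rw [z, z, if_pos (r i a), y]; split_ifs <;> simp [y], ?_, nl fun c => ?_⟩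
  · refine le_trans ?_ ((le_abs_self _).trans (ps (N + 2 * L) _))
    simp only [map_sub, sum_sub_distrib, z]
    simp only [map_sum, map_smul, fe, smul_eq_mul, mul_ite, mul_one, mul_zero, sum_ite_eq]
    rw [sum_congr rfl fun i h => if_pos (mem_range.1 h), sum_ite_mem, inter_eq_right.2 fun i h => mem_range.2 (r i h),
      sum_congr rfl fun i h => if_pos (r i h), sum_union d, sum_congr rfl fun i h => (m i h).2.2,
      ← sum_range_add_sum_Ico _ (Nat.le_add_right ..), t, sum_congr rfl (g := fun _ => 1) fun i h => if_pos (mem_range.1 h),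
      sum_congr rfl (g := fun _ => 1) fun i h => if_pos ((mem_range.1 h).trans_le (Nat.sub_le ..))]
    have : ((k : ℝ) + 1) * n k = L := by simp [hL]
    simp [B, Nat.cast_sub (show L ≤ N by omega), this]
    linarith [L.cast_nonneg (α := ℝ)]
  rw [sum_congr (s₁ := range N) rfl (g := fun i => w i • e i) fun i h => by
    rw [z, if_pos ((mem_range.1 h).trans_le (Nat.le_add_right ..))],
    ← sum_Ico_eq_sub _ (Nat.le_add_right ..), gs]
  rcases c.2.2 with ⟨M, h⟩ | h
  · have : (1 : ℝ) ≤ n k := mod_cast np k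
    simp only [h, mul_ite, mul_one, mul_zero, ← sum_filter]
    rw [show filter (· < M) (Ico N (N + 2 * L)) = Ico N (N + (min (N + 2 * L) M - N)) by ext; simp; omega, t]
    split_ifs <;> simp [this]
  rw [show Ico N (N + 2 * L) = J k from rfl, ← sum_subset (inter_subset_right (s₁ := c.1.support)) fun i a h => by
    simp [Finsupp.notMem_support_iff.1 fun l => h (mem_inter.2 ⟨l, a⟩)]]
  exact (abs_sum_le_sum_abs _ _).trans ((sum_le_card_nsmul _ _ 1 fun i _ => by simpa [y] using c.2.1 i).trans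
    (by simpa using h k))

end

end Pool.Agent.H.MP_6095cf_an
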